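import Mathlib
import Pool.Agent.H964.LF.Stm

/-!
Project LF (helper964): charts (`S_CHART`).
-/

set_option autoImplicit false

namespace Pool.Agent.H747.LF

open Pool.Agent.H964.LF

theorem sizes (K0 R n : ℕ) (h4 : 4 ∣ K0) (h16 : 16 ≤ K0) (hn : K0 + 8 * R + 64 ≤ n) :
    ∃ K J : ℕ, K0 ≤ K ∧ K ≤ 2 * K0 ∧ 4 ∣ K ∧ 0 < K ∧ K * 2 ^ J + 2 * R + 8 ≤ 2 * n + 2 ∧
      2 * n + 2 ≤ 4 * K0 * 2 ^ J ∧ n + 2 < K * 2 ^ J := by
  obtain ⟨a, rfl⟩ := h4
  obtain ⟨J, hJ⟩ : ∃ J, J = Nat.log 2 (3 * (2 * n + 2) / (4 * (4 * a))) := ⟨_, rfl⟩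
  have h1 : 2 ^ J ≤ 3 * (2 * n + 2) / (4 * (4 * a)) := by
    rw [hJ]
    apply Nat.pow_log_le_self
    have : 0 < 3 * (2 * n + 2) / (4 * (4 * a)) := Nat.div_pos (by omega) (by omega)
    omega
  have h2 : 3 * (2 * n + 2) / (4 * (4 * a)) < 2 ^ (J + 1) := by
    rw [hJ]
    exact Nat.lt_pow_succ_log_self (by norm_num) _
  obtain ⟨M, hM⟩ : ∃ M, M = 2 ^ J := ⟨_, rfl⟩
  have hM0 : 0 < M := by
    rw [hM]
    positivity
  rw [pow_succ, ← hM] at h2
  rw [← hM] at h1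
  have h1' : M * (4 * (4 * a)) ≤ 3 * (2 * n + 2) := (Nat.le_div_iff_mul_le (by omega)).mp h1
  have h2' : 3 * (2 * n + 2) < M * 2 * (4 * (4 * a)) := (Nat.div_lt_iff_lt_mul (by omega)).mp h2
  obtain ⟨t, ht⟩ : ∃ t, t = 3 * (2 * n + 2) / (16 * M) := ⟨_, rfl⟩
  have h3 : t * (16 * M) ≤ 3 * (2 * n + 2) := by
    rw [ht]
    exact Nat.div_mul_le_self _ _
  have h5 : 3 * (2 * n + 2) < (t + 1) * (16 * M) := by
    rw [ht]
    exact (Nat.div_lt_iff_lt_mul (by omega)).mp (Nat.lt_succ_self _)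
  obtain ⟨x, hx⟩ : ∃ x, x = a * M := ⟨_, rfl⟩
  obtain ⟨y, hy⟩ : ∃ y, y = t * M := ⟨_, rfl⟩
  have e1 : M * (4 * (4 * a)) = 16 * x := by rw [hx]; ring
  have e2 : M * 2 * (4 * (4 * a)) = 32 * x := by rw [hx]; ring
  have e3 : t * (16 * M) = 16 * y := by rw [hy]; ring
  have e4 : (t + 1) * (16 * M) = 16 * y + 16 * M := by rw [hy]; ring
  have e5 : 4 * M ≤ x := by
    rw [hx]
    exact Nat.mul_le_mul_right M (by omega)
  have e6 : 4 * t * M = 4 * y := by rw [hy]; ring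
  have e7 : 4 * (4 * a) * M = 16 * x := by rw [hx]; ring
  have hat : a ≤ t := by
    rw [ht, Nat.le_div_iff_mul_le (by omega)]
    have : a * (16 * M) = 16 * x := by rw [hx]; ring
    omega
  have hta : t < 2 * a := by
    have h6 : t * M < 2 * a * M := by
      have h7 : 2 * a * M = 2 * x := by rw [hx]; ring
      rw [h7, ← hy]
      omega
    exact Nat.lt_of_mul_lt_mul_right h6
  refine ⟨4 * t, J, by omega, by omega, ⟨t, rfl⟩, by omega, ?_, ?_, ?_⟩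
  · rw [← hM, e6]
    omega
  · rw [← hM, e7]
    omega
  · rw [← hM, e6]
    omega

theorem par_sub {d n : ℕ} (τ : Tor d n) (i : Fin d) :
    par (τ - Pi.single i 1) = par τ - 1 := by
  unfold par
  simp only [Pi.sub_apply, map_sub, Finset.sum_sub_distrib]
  congr 1
  rw [Finset.sum_eq_single i]
  · rw [Pi.single_eq_same, map_one]
  · intro j _ hj
    rw [Pi.single_eq_of_ne hj, map_zero]
  · intro h
    exact absurd (Finset.mem_univ i) h

theorem offsets {d n : ℕ} (hd : 1 ≤ d) (v : Tor d n) :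
    ∃ (τ : Tor d n) (o0 o1 : Fin d → ℕ), par τ = 1 ∧ ∀ j, o0 j ≤ n + 2 ∧ o1 j ≤ n + 2 ∧
      τ j + ((o0 j : ℕ) : ZMod (2 * n + 2)) = 0 ∧ τ j + ((o1 j : ℕ) : ZMod (2 * n + 2)) = v j := by
  have h1 : ∀ j, ∃ (t : ZMod (2 * n + 2)) (a b : ℕ), a ≤ n + 1 ∧ b ≤ n + 1 ∧
      t + ((a : ℕ) : ZMod (2 * n + 2)) = 0 ∧ t + ((b : ℕ) : ZMod (2 * n + 2)) = v j := by
    intro j
    have hlt : (v j).val < 2 * n + 2 := ZMod.val_lt (v j)
    by_cases h : (v j).val ≤ n + 1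
    · refine ⟨0, 0, (v j).val, by omega, h, by simp, ?_⟩
      rw [zero_add, ZMod.natCast_zmod_val]
    · refine ⟨v j, 2 * n + 2 - (v j).val, 0, by omega, by omega, ?_, by simp⟩
      have h2 : ((2 * n + 2 - (v j).val : ℕ) : ZMod (2 * n + 2)) = - v j := by
        rw [Nat.cast_sub hlt.le, ZMod.natCast_self, ZMod.natCast_zmod_val, zero_sub]
      rw [h2, add_neg_cancel]
  choose t a b ha hb hta htb using h1
  by_cases hp : par t = 1
  · exact ⟨t, a, b, hp, fun j => ⟨(ha j).trans (by omega), (hb j).trans (by omega), hta j, htb j⟩⟩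
  · have hp0 : par t = 0 := by
      have h2 : ∀ z : ZMod 2, z ≠ 1 → z = 0 := by decide
      exact h2 _ hp
    let i0 : Fin d := ⟨0, by omega⟩
    refine ⟨t - Pi.single i0 1, fun j => a j + (if j = i0 then 1 else 0),
      fun j => b j + (if j = i0 then 1 else 0), ?_, fun j => ?_⟩
    · rw [par_sub, hp0]
      decide
    · have ha' := ha j
      have hb' := hb j
      by_cases hj : j = i0
      · simp only [hj, if_true] at *
        refine ⟨by omega, by omega, ?_, ?_⟩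
        · rw [Pi.sub_apply, Pi.single_eq_same, Nat.cast_add, Nat.cast_one, ← hta i0]
          ring
        · rw [Pi.sub_apply, Pi.single_eq_same, Nat.cast_add, Nat.cast_one, ← htb i0]
          ring
      · simp only [if_neg hj]
        refine ⟨by omega, by omega, ?_, ?_⟩
        · rw [Pi.sub_apply, Pi.single_eq_of_ne hj, sub_zero, add_zero, hta j]
        · rw [Pi.sub_apply, Pi.single_eq_of_ne hj, sub_zero, add_zero, htb j]

theorem ctr_add {d n : ℕ} (τ : Tor d n) (K : ℕ) (o : Fin d → ℕ) :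
    ctr τ K (fun j => o j / K) + zt n (fun j => ((o j % K : ℕ) : ℤ)) =
      fun j => τ j + ((o j : ℕ) : ZMod (2 * n + 2)) := by
  funext j
  show τ j + ((K * (o j / K) : ℕ) : ZMod (2 * n + 2)) + (((o j % K : ℕ) : ℤ) : ZMod (2 * n + 2)) = _
  rw [Int.cast_natCast, add_assoc, ← Nat.cast_add, Nat.div_add_mod]

theorem t_CHART : S_CHART := by
  intro d K0 R hd h4 h16
  refine ⟨K0 + 8 * R + 64, fun n hn v => ?_⟩
  obtain ⟨K, J, hK1, hK2, hK4, hK0, hs, hN, hlt⟩ := sizes K0 R n h4 h16 hn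
  obtain ⟨τ, o0, o1, hp, ho⟩ := offsets hd v
  have hmem : ∀ o : Fin d → ℕ, (∀ j, o j ≤ n + 2) → (fun j => o j / K) ∈ Grid d J := by
    intro o hj
    rw [Grid, Fintype.mem_piFinset]
    intro j
    rw [Finset.mem_range, Nat.div_lt_iff_lt_mul hK0, Nat.mul_comm]
    have := hj j
    omega
  have hbx : ∀ o : Fin d → ℕ, bx (2 * K0) (fun j => ((o j % K : ℕ) : ℤ)) := by
    intro o j
    have h1 : o j % K < K := Nat.mod_lt _ hK0
    show |((o j % K : ℕ) : ℤ)| ≤ ((2 * K0 : ℕ) : ℤ)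
    rw [Nat.abs_cast]
    exact_mod_cast (by omega : o j % K ≤ 2 * K0)
  refine ⟨K, J, τ, fun j => o0 j / K, fun j => o1 j / K, fun j => ((o0 j % K : ℕ) : ℤ),
    fun j => ((o1 j % K : ℕ) : ℤ), hK1, hK2, ⟨hp, hK4, hK0, hs⟩, hN,
    hmem o0 (fun j => (ho j).1), hmem o1 (fun j => (ho j).2.1), hbx o0, hbx o1, ?_, ?_⟩
  · rw [ctr_add]
    funext j
    exact (ho j).2.2.1
  · rw [ctr_add]
    funext j
    exact (ho j).2.2.2

end Pool.Agent.H747.LF
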